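import Mathlib

/-!
# Every Steiner loop is an image of an associativity-propagating Steiner loop

For every Steiner loop `F` there is a Steiner loop `X`, finite if `F` is finite, in which
associativity propagates and which maps homomorphically onto `F`.
-/

namespace Pool.Agent.Results.MP_b3a441_al.EverySteinerLoopIsImage

universe u

/-- A Steiner loop: a commutative loop with `x (x y) = y`. (Unique solvability of `a x = b` and
`y a = b` is a consequence of the axioms, the solution being `a b` in both cases.) -/
class SteinerLoop (X : Type u) extends Mul X, One X where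
  one_mul' : ∀ x : X, 1 * x = x
  comm' : ∀ x y : X, x * y = y * x
  cancel' : ∀ x y : X, x * (x * y) = y

/-- The subloop generated by a set: the smallest subset that contains the identity and the given
set and is closed under multiplication (which is also both divisions). -/
inductive Generated {X : Type u} [SteinerLoop X] (S : Set X) : X → Prop
  | one : Generated S 1
  | basic : ∀ x ∈ S, Generated S x
  | mul : ∀ x y, Generated S x → Generated S y → Generated S (x * y)

/-- Associativity propagates in `X`: whenever `x (y z) = (x y) z`, the subloop generated by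
`x, y, z` is associative. -/
def AssociativityPropagates (X : Type u) [SteinerLoop X] : Prop :=
  ∀ x y z : X, x * (y * z) = (x * y) * z →
    ∀ a b c : X, Generated {x, y, z} a → Generated {x, y, z} b → Generated {x, y, z} c →
      a * (b * c) = (a * b) * c

section Basic

variable {F : Type u} [SteinerLoop F]

theorem one_mul (x : F) : 1 * x = x := SteinerLoop.one_mul' x
theorem comm (x y : F) : x * y = y * x := SteinerLoop.comm' x y
theorem cancel (x y : F) : x * (x * y) = y := SteinerLoop.cancel' x y
theorem mul_one (x : F) : x * 1 = x := by rw [comm, one_mul]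
theorem sq (x : F) : x * x = 1 := by
  have := cancel x 1
  rwa [mul_one] at this
theorem cancel_right (x y : F) : y * (x * y) = x := by rw [comm x y, cancel]
theorem cancel_right' (x y : F) : (x * y) * y = x := by rw [comm, cancel_right]
theorem cancel_left' (x y : F) : (x * y) * x = y := by rw [comm, cancel]
theorem mul_left_inj' {x y z : F} (h : x * y = x * z) : y = z := by
  rw [← cancel x y, h, cancel]
theorem mul_right_inj' {x y z : F} (h : y * x = z * x) : y = z := by
  rw [comm y, comm z] at h
  exact mul_left_inj' h

/-- The triples lying in a subloop generated by two elements. -/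
def Deg (f g h : F) : Prop := f = 1 ∨ g = 1 ∨ h = 1 ∨ f = g ∨ g = h ∨ f = h ∨ h = f * g

/-- Membership in the subloop generated by `a` and `b`. -/
def InKlein (a b f : F) : Prop := f = 1 ∨ f = a ∨ f = b ∨ f = a * b

theorem InKlein.deg {a b f g h : F} (hf : InKlein a b f) (hg : InKlein a b g)
    (hh : InKlein a b h) : Deg f g h := by
  unfold Deg
  rcases hf with rfl | rfl | rfl | rfl
  · tauto
  · rcases hg with rfl | rfl | rfl | rfl
    · tauto
    · tauto
    · rcases hh with rfl | rfl | rfl | rfl <;> tauto
    · rcases hh with rfl | rfl | rfl | rfl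
      · tauto
      · tauto
      · right; right; right; right; right; right
        rw [cancel]
      · tauto
  · rcases hg with rfl | rfl | rfl | rfl
    · tauto
    · rcases hh with rfl | rfl | rfl | rfl
      · tauto
      · tauto
      · tauto
      · right; right; right; right; right; right
        rw [comm]
    · tauto
    · rcases hh with rfl | rfl | rfl | rfl
      · tauto
      · right; right; right; right; right; right
        rw [cancel_right]
      · tauto
      · tauto
  · rcases hg with rfl | rfl | rfl | rfl
    · tauto
    · rcases hh with rfl | rfl | rfl | rfl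
      · tauto
      · tauto
      · right; right; right; right; right; right
        rw [cancel_left']
      · tauto
    · rcases hh with rfl | rfl | rfl | rfl
      · tauto
      · right; right; right; right; right; right
        rw [cancel_right']
      · tauto
      · tauto
    · tauto

theorem InKlein.mul {a b f g : F} (hf : InKlein a b f) (hg : InKlein a b g) :
    InKlein a b (f * g) := by
  rcases hf with h1 | h1 | h1 | h1 <;> rcases hg with h2 | h2 | h2 | h2 <;> rw [h1, h2] <;>
    simp [InKlein, one_mul, mul_one, sq, cancel, cancel_right, cancel_left', cancel_right',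
      comm b a]

theorem Deg.exists_klein {f g h : F} (H : Deg f g h) :
    ∃ a b : F, InKlein a b f ∧ InKlein a b g ∧ InKlein a b h := by
  unfold InKlein
  rcases H with H | H | H | H | H | H | H
  · exact ⟨g, h, by tauto, by tauto, by tauto⟩
  · exact ⟨f, h, by tauto, by tauto, by tauto⟩
  · exact ⟨f, g, by tauto, by tauto, by tauto⟩
  · exact ⟨f, h, by tauto, by simp [H], by tauto⟩
  · exact ⟨f, g, by tauto, by tauto, by simp [H]⟩
  · exact ⟨f, g, by tauto, by tauto, by simp [H]⟩
  · exact ⟨f, g, by tauto, by tauto, by tauto⟩

/-- The vector space over the field with two elements with basis the subsets of `F`. -/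
abbrev V (F : Type u) : Type u := Set F →₀ ZMod 2

omit [SteinerLoop F] in
theorem V_add_self (v : V F) : v + v = 0 := by
  ext s
  simp only [Finsupp.coe_add, Pi.add_apply, Finsupp.coe_zero, Pi.zero_apply]
  exact CharTwo.add_self_eq_zero _

open Classical in
/-- The cocycle: the basis vector of the block `{f, g, f g}`, and zero on degenerate pairs. -/
noncomputable def θ (f g : F) : V F :=
  if f = 1 ∨ g = 1 ∨ f = g then 0 else Finsupp.single {f, g, f * g} 1

theorem θ_of {f g : F} (h : f = 1 ∨ g = 1 ∨ f = g) : θ f g = 0 := by
  unfold θ
  rw [if_pos h]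

theorem θ_of_not {f g : F} (h1 : f ≠ 1) (h2 : g ≠ 1) (h3 : f ≠ g) :
    θ f g = Finsupp.single {f, g, f * g} 1 := by
  unfold θ
  rw [if_neg]
  tauto

theorem θ_comm (f g : F) : θ f g = θ g f := by
  by_cases h : f = 1 ∨ g = 1 ∨ f = g
  · rw [θ_of h, θ_of]
    tauto
  · push Not at h
    rw [θ_of_not h.1 h.2.1 h.2.2, θ_of_not h.2.1 h.1 (Ne.symm h.2.2), comm g f]
    congr 1
    ext x
    simp only [Set.mem_insert_iff, Set.mem_singleton_iff]
    tauto

theorem θ_mul (f g : F) : θ f (f * g) = θ f g := by
  by_cases h : f = 1 ∨ g = 1 ∨ f = g
  · rw [θ_of h, θ_of]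
    rcases h with h | h | h
    · exact Or.inl h
    · right; right; rw [h, mul_one]
    · right; left; rw [h, sq]
  · push Not at h
    have h1 : f * g ≠ 1 := by
      intro H
      apply h.2.2
      have := cancel f g
      rw [H, mul_one] at this
      exact this
    have h2 : f ≠ f * g := by
      intro H
      apply h.2.1
      have := cancel f g
      rw [← H, sq] at this
      exact this.symm
    rw [θ_of_not h.1 h.2.1 h.2.2, θ_of_not h.1 h1 h2, cancel]
    congr 1
    ext x
    simp only [Set.mem_insert_iff, Set.mem_singleton_iff]
    tauto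

/-- The underlying set of the central extension of `F` by `V F` with cocycle `θ`. -/
@[ext] structure Ext (F : Type u) : Type u where
  base : F
  vec : V F

noncomputable instance : SteinerLoop (Ext F) where
  mul x y := ⟨x.base * y.base, x.vec + y.vec + θ x.base y.base⟩
  one := ⟨1, 0⟩
  one_mul' x := by
    change (⟨1 * x.base, 0 + x.vec + θ 1 x.base⟩ : Ext F) = x
    rw [one_mul, θ_of (Or.inl rfl), zero_add, add_zero]
  comm' x y := by
    change (⟨x.base * y.base, x.vec + y.vec + θ x.base y.base⟩ : Ext F) =
      ⟨y.base * x.base, y.vec + x.vec + θ y.base x.base⟩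
    rw [comm, add_comm x.vec, θ_comm]
  cancel' x y := by
    change (⟨x.base * (x.base * y.base), x.vec + (x.vec + y.vec + θ x.base y.base) +
      θ x.base (x.base * y.base)⟩ : Ext F) = y
    rw [cancel, θ_mul]
    have : x.vec + (x.vec + y.vec + θ x.base y.base) + θ x.base y.base = y.vec := by
      calc x.vec + (x.vec + y.vec + θ x.base y.base) + θ x.base y.base
          = (x.vec + x.vec) + y.vec + (θ x.base y.base + θ x.base y.base) := by abel
        _ = y.vec := by rw [V_add_self, V_add_self, zero_add, add_zero]
    rw [this]

/-- Associativity of a triple in the extension, in terms of its components. -/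
theorem assoc_iff (x y z : Ext F) : x * (y * z) = (x * y) * z ↔
    x.base * (y.base * z.base) = (x.base * y.base) * z.base ∧
      θ y.base z.base + θ x.base (y.base * z.base) =
        θ x.base y.base + θ (x.base * y.base) z.base := by
  change (⟨x.base * (y.base * z.base), x.vec + (y.vec + z.vec + θ y.base z.base) +
      θ x.base (y.base * z.base)⟩ : Ext F) =
    ⟨(x.base * y.base) * z.base, (x.vec + y.vec + θ x.base y.base) + z.vec +
      θ (x.base * y.base) z.base⟩ ↔ _
  rw [Ext.mk.injEq]
  refine and_congr_right fun _ => ?_
  rw [show x.vec + (y.vec + z.vec + θ y.base z.base) + θ x.base (y.base * z.base) =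
      (x.vec + y.vec + z.vec) + (θ y.base z.base + θ x.base (y.base * z.base)) by abel,
    show (x.vec + y.vec + θ x.base y.base) + z.vec + θ (x.base * y.base) z.base =
      (x.vec + y.vec + z.vec) + (θ x.base y.base + θ (x.base * y.base) z.base) by abel,
    add_right_inj]

theorem assoc_of_deg {f g h : F} (H : Deg f g h) :
    f * (g * h) = (f * g) * h ∧ θ g h + θ f (g * h) = θ f g + θ (f * g) h := by
  -- it is enough to show associativity for some lift to the extension
  have key : ∀ x y z : Ext F, x * (y * z) = (x * y) * z → x.base = f → y.base = g →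
      z.base = h →
      f * (g * h) = (f * g) * h ∧ θ g h + θ f (g * h) = θ f g + θ (f * g) h := by
    intro x y z H' hx hy hz
    subst hx hy hz
    exact (assoc_iff x y z).mp H'
  rcases H with H | H | H | H | H | H | H
  · apply key 1 ⟨g, 0⟩ ⟨h, 0⟩ _ H.symm rfl rfl
    rw [one_mul, one_mul]
  · apply key ⟨f, 0⟩ 1 ⟨h, 0⟩ _ rfl H.symm rfl
    rw [one_mul, mul_one]
  · apply key ⟨f, 0⟩ ⟨g, 0⟩ 1 _ rfl rfl H.symm
    rw [mul_one, mul_one]
  · apply key ⟨f, 0⟩ ⟨f, 0⟩ ⟨h, 0⟩ _ rfl H rfl
    rw [cancel, sq, one_mul]
  · apply key ⟨f, 0⟩ ⟨g, 0⟩ ⟨g, 0⟩ _ rfl rfl H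
    rw [sq, mul_one, cancel_right']
  · apply key ⟨f, 0⟩ ⟨g, 0⟩ ⟨f, 0⟩ _ rfl rfl H
    rw [comm ⟨g, 0⟩ (⟨f, 0⟩ : Ext F), comm]
  · subst H
    refine ⟨by rw [cancel_right, sq, sq], ?_⟩
    rw [cancel_right, θ_of (Or.inr (Or.inr rfl)), θ_of (Or.inr (Or.inr rfl)), θ_comm f g,
      comm f g, θ_mul]

theorem deg_of_assoc {f g h : F}
    (H2 : θ g h + θ f (g * h) = θ f g + θ (f * g) h) : Deg f g h := by
  by_contra hcon
  unfold Deg at hcon
  push Not at hcon
  obtain ⟨hf, hg, hh, hfg, hgh, hfh, hhfg⟩ := hcon
  have hgh1 : g * h ≠ 1 := by
    intro H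
    apply hgh
    have := cancel g h
    rw [H, mul_one] at this
    exact this
  have hfg1 : f * g ≠ 1 := by
    intro H
    apply hfg
    have := cancel f g
    rw [H, mul_one] at this
    exact this
  have hfgh : f ≠ g * h := by
    intro H
    apply hhfg
    rw [H, cancel_left']
  rw [θ_of_not hg hh hgh, θ_of_not hf hgh1 hfgh, θ_of_not hf hg hfg,
    θ_of_not hfg1 hh (Ne.symm hhfg)] at H2
  have H3 := DFunLike.congr_fun H2 ({g, h, g * h} : Set F)
  have e1 : ({f, g * h, f * (g * h)} : Set F) ≠ {g, h, g * h} := by
    intro H
    have : f ∈ ({g, h, g * h} : Set F) := by rw [← H]; simp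
    simp only [Set.mem_insert_iff, Set.mem_singleton_iff] at this
    tauto
  have e2 : ({f, g, f * g} : Set F) ≠ {g, h, g * h} := by
    intro H
    have : f ∈ ({g, h, g * h} : Set F) := by rw [← H]; simp
    simp only [Set.mem_insert_iff, Set.mem_singleton_iff] at this
    tauto
  have e3 : ({f * g, h, f * g * h} : Set F) ≠ {g, h, g * h} := by
    intro H
    have : f * g ∈ ({g, h, g * h} : Set F) := by rw [← H]; simp
    simp only [Set.mem_insert_iff, Set.mem_singleton_iff] at this
    rcases this with h' | h' | h'
    · apply hf
      have := cancel_right' f g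
      rw [h', sq] at this
      exact this.symm
    · exact hhfg h'.symm
    · apply hfh
      rw [comm f g] at h'
      exact mul_left_inj' h'
  simp only [Finsupp.coe_add, Pi.add_apply, Finsupp.single_eq_same,
    Finsupp.single_eq_of_ne' e1, Finsupp.single_eq_of_ne' e2, Finsupp.single_eq_of_ne' e3,
    add_zero] at H3
  exact absurd H3 (by decide)

theorem propagates : AssociativityPropagates (Ext F) := by
  intro x y z H a b c ha hb hc
  obtain ⟨-, H2⟩ := (assoc_iff x y z).mp H
  obtain ⟨p, q, hx, hy, hz⟩ := (deg_of_assoc H2).exists_klein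
  have hmem : ∀ w : Ext F, Generated {x, y, z} w → InKlein p q w.base := by
    intro w hw
    induction hw with
    | one => exact Or.inl rfl
    | basic w hw =>
      simp only [Set.mem_insert_iff, Set.mem_singleton_iff] at hw
      rcases hw with rfl | rfl | rfl
      · exact hx
      · exact hy
      · exact hz
    | mul u v _ _ ihu ihv => exact ihu.mul ihv
  rw [assoc_iff]
  exact assoc_of_deg ((hmem a ha).deg (hmem b hb) (hmem c hc))

omit [SteinerLoop F] in
theorem finite_ext [Finite F] : Finite (Ext F) := by
  have : Finite (V F) := Finite.of_equiv _ (Finsupp.equivFunOnFinite (α := Set F)).symm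
  exact Finite.of_injective (fun x : Ext F => (x.base, x.vec)) (fun x y h => by
    have h1 := congrArg Prod.fst h
    have h2 := congrArg Prod.snd h
    exact Ext.ext h1 h2)

end Basic

/-- For every Steiner loop `F` there is a Steiner loop `X`, finite whenever `F` is finite, in
which associativity propagates and of which `F` is a homomorphic image. -/
theorem result (F : Type u) [SteinerLoop F] :
    ∃ (X : Type u) (_ : SteinerLoop X) (φ : X → F),
      AssociativityPropagates X ∧ (∀ x y, φ (x * y) = φ x * φ y) ∧ Function.Surjective φ ∧
        (Finite F → Finite X) :=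
  ⟨Ext F, inferInstance, fun x => x.base, propagates, fun _ _ => rfl,
    fun f => ⟨⟨f, 0⟩, rfl⟩, fun _ => finite_ext⟩

end Pool.Agent.Results.MP_b3a441_al.EverySteinerLoopIsImage
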